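import Pool.Agent.W_4481e3_q87.GoR
import Pool.Agent.W_4481e3_tab.T9

/-!
Tree s02o9, data 6.
-/

namespace Pool.Agent.W_4481e3_rt.s02o9

open Pool.Agent.W_4481e3_q25.EvR

theorem k116 : ckO Pool.Agent.W_4481e3_tab.T9.tab 4372160 6498560 16777216 8388608 11862016 14483456 8 524288 524288 2621440 524288 516253878 527356903 244217 468350 268407698 268447865 16777216 16777216 14628291 14628291 0x104000c04000c105000c04000c06000c2106000c06000c06000c21207000c07000c107000c07000c07000c1207000c08000c08000c08000c2121212 = true := by decide +kernel

theorem k118 : ckO Pool.Agent.W_4481e3_tab.T9.tab 4372160 6498560 16777216 8388608 11862016 14483456 2 524288 524288 2621440 524288 516498095 526420203 488434 468350 268407698 268447865 16777216 16777216 14628291 14628291 0x103000c04000c1 = true := by decide +kernel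

theorem k120 : ckO Pool.Agent.W_4481e3_tab.T9.tab 4372160 6498560 16777216 8388608 11862016 14483456 8 524288 524288 2621440 524288 515521227 526888553 488434 936700 268407698 268447865 16777216 16777216 14628291 14628291 0x103000c03000c04000c04000c1204000c04000c05000c04000c06000c21204000c06000c21212 = true := by decide +kernel

theorem k124 : ckO Pool.Agent.W_4481e3_tab.T9.tab 4372160 6498560 16777216 8388608 11862016 14483456 4 524288 524288 2621440 524288 516986528 524078453 1953734 1873400 268407698 268447865 16777216 16777216 14628291 14628291 0x103000c03000c203000c03000c03000c121 = true := by decide +kernel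

theorem k129 : ckO Pool.Agent.W_4481e3_tab.T9.tab 4372160 6498560 16777216 8388608 11862016 14483456 15 524288 524288 2621440 524288 511768002 529698652 3586130 7172260 268435456 268435456 16777216 16777216 14628291 14628291 0x102000c02000c02000c03000c21202000c03000c103000c03000c04000c204000c05029c21203000c03000c203000c03000c04000c203000c05000c04000c05000c05000c06000c2121212105070c04000c05070c2105070c05070c05029c21205000c05000c06000c2106000c206000c06000c106000c06000c06000c21282b207a5c17106000c06000c206000c07000cb21b21218293b79fcc72121814f67b45e703000c04000c204000c04000c04000c2104000c04000c05070c104000c05000cbb1205000c05000cb1251212104000c04000c204000c04000c204000cb2bb21bb2b12104000c04000c2bb2121205029c05070c205070c05029c05070c12181acc79695705029c05070c205029c06000c2106000cb2b1205070cb2b1b21205070c05070c05070c2105029cb2b12827ec79a25706000cb2bb2b1b21b282e0779e3c71bb128298478ba471bb2b1bb12b12180c9d7855d72 = true := by decide +kernel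

theorem k131 : ckO Pool.Agent.W_4481e3_tab.T9.tab 4372160 6498560 16777216 8388608 11862016 14483456 5 524288 524288 2621440 524288 515354132 515354132 7172260 7172260 268435456 268435456 16777216 16777216 14628291 14628291 0x102000c02000c02000c1202000c02000c03000c202000c03000c2121 = true := by decide +kernel

theorem k134 : ckO Pool.Agent.W_4481e3_tab.T9.tab 4372160 6498560 16777216 8388608 11862016 14483456 5 524288 524288 2621440 524288 522526392 493837352 14344520 14344520 268435456 268435456 16777216 16777216 14628291 14628291 0x100000c00000c01000c201000c02000c21201003c01029c01007c121 = true := by decide +kernel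

theorem k136 : ckO Pool.Agent.W_4481e3_tab.T9.tab 4372160 6498560 16777216 8388608 11862016 14483456 8 524288 524288 2621440 524288 493837352 508181872 14344520 28689040 268435456 268435456 16777216 16777216 14628291 14628291 0x100000c00000c00000c00000c00000c02000c12100000c00000c200000c00000c202000c02000c2102000c02000c203000c04000c2121212 = true := by decide +kernel

end Pool.Agent.W_4481e3_rt.s02o9
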